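import Mathlib

/-! Degree and cofactors in free associative algebras, and the Euclidean algorithm for two
elements with a common right multiple. -/

namespace Pool.Agent.Helper294.FG

universe u v
variable {k : Type u} [Field k] {X : Type v}


/-- the constant term -/
noncomputable def ep : FreeAlgebra k X →ₐ[k] k := FreeAlgebra.algebraMapInv

lemma ep_ι (x : X) : ep (FreeAlgebra.ι k x) = 0 := by
  simp [ep, FreeAlgebra.algebraMapInv]

open Classical in
/-- upper triangular representation -/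
noncomputable def Ph (x : X) : FreeAlgebra k X →ₐ[k] Matrix (Fin 2) (Fin 2) (FreeAlgebra k X) :=
  FreeAlgebra.lift k (fun y => !![FreeAlgebra.ι k y, if y = x then 1 else 0; 0, 0])

lemma Ph_shape (x : X) (f : FreeAlgebra k X) :
    Ph x f 0 0 = f ∧ Ph x f 1 0 = 0 ∧ Ph x f 1 1 = algebraMap k (FreeAlgebra k X) (ep f) := by
  classical
  induction f using FreeAlgebra.induction with
  | grade0 r =>
    rw [AlgHom.commutes, AlgHom.commutes]
    simp [Matrix.algebraMap_matrix_apply]
  | grade1 y =>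
    rw [ep_ι]
    simp [Ph]
  | mul a b ha hb =>
    obtain ⟨a1, a2, a3⟩ := ha
    obtain ⟨b1, b2, b3⟩ := hb
    simp [map_mul, Matrix.mul_apply, Fin.sum_univ_two, a1, a2, a3, b1, b2, b3]
  | add a b ha hb =>
    obtain ⟨a1, a2, a3⟩ := ha
    obtain ⟨b1, b2, b3⟩ := hb
    simp [map_add, a1, a2, a3, b1, b2, b3]

/-- the right cofactor: `f = ep f + ∑ x, dd x f * x` -/
noncomputable def dd (x : X) (f : FreeAlgebra k X) : FreeAlgebra k X := Ph x f 0 1

lemma dd_add (x : X) (f g : FreeAlgebra k X) : dd x (f + g) = dd x f + dd x g := by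
  simp [dd, map_add]

lemma dd_sub (x : X) (f g : FreeAlgebra k X) : dd x (f - g) = dd x f - dd x g := by
  simp [dd, map_sub]

lemma dd_smul (x : X) (c : k) (f : FreeAlgebra k X) : dd x (c • f) = c • dd x f := by
  simp [dd, map_smul]

lemma dd_algebraMap (x : X) (c : k) : dd x (algebraMap k (FreeAlgebra k X) c) = 0 := by
  rw [dd, AlgHom.commutes]
  simp [Matrix.algebraMap_matrix_apply]

lemma dd_zero (x : X) : dd x (0 : FreeAlgebra k X) = 0 := by
  simp [dd]

lemma dd_ι_self (x : X) : dd x (FreeAlgebra.ι k x) = 1 := by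
  simp [dd, Ph]

lemma dd_ι_ne (x y : X) (h : y ≠ x) : dd x (FreeAlgebra.ι k y) = 0 := by
  simp [dd, Ph, h]

lemma dd_mul (x : X) (f g : FreeAlgebra k X) : dd x (f * g) = f * dd x g + ep g • dd x f := by
  obtain ⟨f1, f2, f3⟩ := Ph_shape x f
  obtain ⟨g1, g2, g3⟩ := Ph_shape x g
  have : Ph x (f * g) 0 1 = Ph x f 0 0 * Ph x g 0 1 + Ph x f 0 1 * Ph x g 1 1 := by
    rw [map_mul, Matrix.mul_apply, Fin.sum_univ_two]
  rw [dd, this, f1, g3, dd, dd, Algebra.smul_def, Algebra.commutes]

lemma expand (f : FreeAlgebra k X) : ∃ c : X →₀ FreeAlgebra k X, (∀ x, c x = dd x f) ∧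
    f = algebraMap k (FreeAlgebra k X) (ep f) + c.sum (fun x r => r * FreeAlgebra.ι k x) := by
  classical
  induction f using FreeAlgebra.induction with
  | grade0 r =>
    refine ⟨0, fun x => by rw [dd_algebraMap]; rfl, ?_⟩
    rw [AlgHom.commutes]; simp
  | grade1 y =>
    refine ⟨Finsupp.single y 1, fun x => ?_, ?_⟩
    · by_cases h : y = x
      · subst h; rw [dd_ι_self]; simp
      · rw [dd_ι_ne x y h, Finsupp.single_eq_of_ne (Ne.symm h)]
    · rw [ep_ι]; simp
  | mul a b ha hb =>
    obtain ⟨c, hc, ea⟩ := ha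
    obtain ⟨d, hd, eb⟩ := hb
    refine ⟨d.mapRange (fun r => a * r) (mul_zero a) + ep b • c, fun x => ?_, ?_⟩
    · rw [Finsupp.add_apply, Finsupp.mapRange_apply, Finsupp.smul_apply, hc, hd, dd_mul]
    · rw [Finsupp.sum_add_index' (fun _ => zero_mul _) (fun _ _ _ => add_mul _ _ _),
        Finsupp.sum_mapRange_index (fun _ => zero_mul _),
        Finsupp.sum_smul_index' (fun _ => zero_mul _)]
      have e1 : (d.sum fun x r => a * r * FreeAlgebra.ι k x) = a * d.sum (fun x r => r * FreeAlgebra.ι k x) := by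
        rw [Finsupp.mul_sum]; simp only [mul_assoc]
      have e2 : (c.sum fun x r => ep b • r * FreeAlgebra.ι k x) = ep b • c.sum (fun x r => r * FreeAlgebra.ι k x) := by
        rw [Finsupp.smul_sum]; simp only [smul_mul_assoc]
      rw [e1, e2]
      conv_lhs => rw [eb, mul_add, ← Algebra.commutes, ← Algebra.smul_def]
      conv_lhs => enter [1]; rw [ea]
      rw [smul_add, map_mul, map_mul, Algebra.smul_def, ← map_mul, mul_comm (ep b), map_mul]
      abel
  | add a b ha hb =>
    obtain ⟨c, hc, ea⟩ := ha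
    obtain ⟨d, hd, eb⟩ := hb
    refine ⟨c + d, fun x => ?_, ?_⟩
    · rw [Finsupp.add_apply, hc, hd, dd_add]
    · rw [Finsupp.sum_add_index' (fun _ => zero_mul _) (fun _ _ _ => add_mul _ _ _), map_add, map_add]
      conv_lhs => rw [ea, eb]
      abel

lemma const_of_dd_zero {f : FreeAlgebra k X} (h : ∀ x, dd x f = 0) :
    f = algebraMap k (FreeAlgebra k X) (ep f) := by
  obtain ⟨c, hc, e⟩ := expand f
  have : c = 0 := Finsupp.ext fun x => by rw [hc, h]; rfl
  rw [this] at e
  simpa using e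

/-- filtration by size: `Fl n f` says that `f` has degree `< n` -/
def Fl : ℕ → FreeAlgebra k X → Prop
  | 0, f => f = 0
  | n + 1, f => ∀ x, Fl n (dd x f)

lemma Fl_zero (n : ℕ) : Fl n (0 : FreeAlgebra k X) := by
  induction n with
  | zero => rfl
  | succ n ih => intro x; rw [dd_zero]; exact ih

lemma Fl_mono_succ {n : ℕ} : ∀ {f : FreeAlgebra k X}, Fl n f → Fl (n + 1) f := by
  induction n with
  | zero => intro f h x; rw [show f = 0 from h, dd_zero]; rfl
  | succ n ih => intro f h x; exact ih (h x)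

lemma Fl_mono {n m : ℕ} (h : n ≤ m) {f : FreeAlgebra k X} (hf : Fl n f) : Fl m f := by
  induction h with
  | refl => exact hf
  | step _ ih => exact Fl_mono_succ ih

lemma Fl_add {n : ℕ} : ∀ {f g : FreeAlgebra k X}, Fl n f → Fl n g → Fl n (f + g) := by
  induction n with
  | zero => intro f g hf hg; change f + g = 0; rw [show f = 0 from hf, show g = 0 from hg, add_zero]
  | succ n ih => intro f g hf hg x; rw [dd_add]; exact ih (hf x) (hg x)

lemma Fl_smul {n : ℕ} (c : k) : ∀ {f : FreeAlgebra k X}, Fl n f → Fl n (c • f) := by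
  induction n with
  | zero => intro f hf; change c • f = 0; rw [show f = 0 from hf, smul_zero]
  | succ n ih => intro f hf x; rw [dd_smul]; exact ih (hf x)

lemma Fl_neg {n : ℕ} {f : FreeAlgebra k X} (hf : Fl n f) : Fl n (-f) := by
  rw [← neg_one_smul k f]; exact Fl_smul (-1) hf

lemma Fl_sub {n : ℕ} {f g : FreeAlgebra k X} (hf : Fl n f) (hg : Fl n g) : Fl n (f - g) := by
  rw [sub_eq_add_neg]; exact Fl_add hf (Fl_neg hg)

lemma Fl_const (c : k) : Fl 1 (algebraMap k (FreeAlgebra k X) c) := by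
  intro x; rw [dd_algebraMap]; rfl

lemma const_of_Fl_one {f : FreeAlgebra k X} (h : Fl 1 f) :
    f = algebraMap k (FreeAlgebra k X) (ep f) := const_of_dd_zero h

lemma Fl_dd {n : ℕ} {f : FreeAlgebra k X} (h : Fl n f) (x : X) : Fl (n - 1) (dd x f) := by
  cases n with
  | zero => rw [show f = 0 from h, dd_zero]; rfl
  | succ n => exact h x

lemma Fl_mul {n : ℕ} {f : FreeAlgebra k X} (hf : Fl n f) :
    ∀ {m : ℕ} {g : FreeAlgebra k X}, Fl (m + 1) g → Fl (n + m) (f * g) := by
  intro m
  induction m with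
  | zero =>
    intro g hg
    rw [const_of_Fl_one hg, ← Algebra.commutes, ← Algebra.smul_def]
    exact Fl_smul _ hf
  | succ m ih =>
    intro g hg x
    rw [dd_mul]
    exact Fl_add (ih (hg x)) (Fl_smul _ (Fl_mono (Nat.le_trans (Nat.sub_le n 1) (Nat.le_add_right n m)) (Fl_dd hf x)))

lemma exists_Fl (f : FreeAlgebra k X) : ∃ n, Fl (n + 1) f := by
  classical
  induction f using FreeAlgebra.induction with
  | grade0 r => exact ⟨0, Fl_const r⟩
  | grade1 y =>
    refine ⟨1, fun x => ?_⟩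
    by_cases h : y = x
    · subst h; rw [dd_ι_self, ← map_one (algebraMap k (FreeAlgebra k X))]; exact Fl_const 1
    · rw [dd_ι_ne x y h]; exact Fl_zero _
  | mul a b ha hb =>
    obtain ⟨n, hn⟩ := ha
    obtain ⟨m, hm⟩ := hb
    exact ⟨n + m, Fl_mono (by omega) (Fl_mul hn hm)⟩
  | add a b ha hb =>
    obtain ⟨n, hn⟩ := ha
    obtain ⟨m, hm⟩ := hb
    exact ⟨n + m, Fl_add (Fl_mono (by omega) hn) (Fl_mono (by omega) hm)⟩

open Classical in
/-- the size: degree plus one, and `0` for the zero element -/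
noncomputable def sz (f : FreeAlgebra k X) : ℕ := Nat.find (⟨_, (exists_Fl f).choose_spec⟩ : ∃ n, Fl n f)

lemma Fl_sz (f : FreeAlgebra k X) : Fl (sz f) f := by
  classical
  exact Nat.find_spec (⟨_, (exists_Fl f).choose_spec⟩ : ∃ n, Fl n f)

lemma sz_le {n : ℕ} {f : FreeAlgebra k X} (h : Fl n f) : sz f ≤ n := by
  classical
  exact Nat.find_min' _ h

lemma Fl_iff {n : ℕ} {f : FreeAlgebra k X} : Fl n f ↔ sz f ≤ n :=
  ⟨sz_le, fun h => Fl_mono h (Fl_sz f)⟩

lemma sz_eq_zero {f : FreeAlgebra k X} : sz f = 0 ↔ f = 0 := by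
  constructor
  · intro h; have := Fl_sz f; rw [h] at this; exact this
  · rintro rfl; exact Nat.le_zero.1 (sz_le (Fl_zero 0))

/-- a cofactor of maximal size -/
lemma exists_dd {m : ℕ} {f : FreeAlgebra k X} (h : sz f = m + 2) : ∃ x, sz (dd x f) = m + 1 := by
  by_contra hne
  push Not at hne
  have h1 : ∀ x, sz (dd x f) ≤ m + 1 := fun x => by
    have := Fl_sz f
    rw [h] at this
    exact sz_le (this x)
  have h2 : Fl (m + 1) f := fun x => Fl_iff.2 (by have := h1 x; have := hne x; omega)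
  have := sz_le h2
  omega

/-- lower bound for the size of a product -/
lemma mul_lower {r : FreeAlgebra k X} (hr : r ≠ 0) : ∀ {m : ℕ} {s : FreeAlgebra k X} {N : ℕ},
    sz s = m + 1 → Fl N (r * s) → sz r + m ≤ N := by
  intro m
  induction m with
  | zero =>
    intro s N hs h
    have h1 := const_of_Fl_one (Fl_iff.2 hs.le)
    have hc : ep s ≠ 0 := by
      intro h0
      rw [h0, map_zero] at h1
      rw [sz_eq_zero.2 h1] at hs
      omega
    rw [h1, ← Algebra.commutes, ← Algebra.smul_def] at h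
    have h2 := Fl_smul (ep s)⁻¹ h
    rw [smul_smul, inv_mul_cancel₀ hc, one_smul] at h2
    exact sz_le h2
  | succ m ih =>
    intro s N hs h
    obtain ⟨x, hx⟩ := exists_dd hs
    have h1 := Fl_dd h x
    rw [dd_mul] at h1
    have h2 : Fl (max (N - 1) (sz r - 1)) (r * dd x s) := by
      have h3 := Fl_sub (Fl_mono (le_max_left (N - 1) (sz r - 1)) h1)
        (Fl_mono (le_max_right (N - 1) (sz r - 1)) (Fl_smul (ep s) (Fl_dd (Fl_sz r) x)))
      simpa using h3
    have h4 := ih hx h2
    have h5 : 0 < sz r := Nat.pos_of_ne_zero (fun h => hr (sz_eq_zero.1 h))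
    rcases le_total (N - 1) (sz r - 1) with hle | hle
    · rw [max_eq_right hle] at h4; omega
    · rw [max_eq_left hle] at h4; omega

/-- the size of a product -/
lemma sz_mul {r s : FreeAlgebra k X} (hr : r ≠ 0) (hs : s ≠ 0) : sz (r * s) + 1 = sz r + sz s := by
  obtain ⟨m, hm⟩ : ∃ m, sz s = m + 1 := ⟨sz s - 1, by
    have : sz s ≠ 0 := fun h => hs (sz_eq_zero.1 h)
    omega⟩
  have h1 := mul_lower hr hm (Fl_sz (r * s))
  have h2 : Fl (sz r + m) (r * s) := Fl_mul (Fl_sz r) (by rw [← hm]; exact Fl_sz s)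
  have h3 := sz_le h2
  omega

lemma sz_add_le {f g : FreeAlgebra k X} {n : ℕ} (hf : sz f ≤ n) (hg : sz g ≤ n) : sz (f + g) ≤ n :=
  sz_le (Fl_add (Fl_iff.2 hf) (Fl_iff.2 hg))

lemma sz_sub_le {f g : FreeAlgebra k X} {n : ℕ} (hf : sz f ≤ n) (hg : sz g ≤ n) : sz (f - g) ≤ n :=
  sz_le (Fl_sub (Fl_iff.2 hf) (Fl_iff.2 hg))

/-- the weak algorithm for two elements, approximate form -/
lemma weak {a b : FreeAlgebra k X} {α : ℕ} (ha : Fl (α + 1) a) (hb : Fl (α + 1) b) :
    ∀ {m : ℕ} {u v : FreeAlgebra k X}, sz u = m + 1 → Fl (α + m) (a * u - b * v) →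
      ∃ q, Fl α (a - b * q) := by
  intro m
  induction m with
  | zero =>
    intro u v hu h
    have h1 := const_of_Fl_one (Fl_iff.2 hu.le)
    have hc : ep u ≠ 0 := by
      intro h0
      rw [h0, map_zero] at h1
      rw [sz_eq_zero.2 h1] at hu
      omega
    rw [h1, ← Algebra.commutes, ← Algebra.smul_def] at h
    have h2 := Fl_smul (ep u)⁻¹ h
    rw [smul_sub, smul_smul, inv_mul_cancel₀ hc, one_smul, ← mul_smul_comm] at h2
    exact ⟨_, h2⟩
  | succ m ih =>
    intro u v hu h
    obtain ⟨x, hx⟩ := exists_dd hu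
    apply ih (v := dd x v) hx
    have h1 : Fl (α + m) (dd x (a * u - b * v)) := h x
    rw [dd_sub, dd_mul, dd_mul] at h1
    have h2 : Fl (α + m) (ep u • dd x a) := Fl_smul _ (Fl_mono (by omega) (ha x))
    have h3 : Fl (α + m) (ep v • dd x b) := Fl_smul _ (Fl_mono (by omega) (hb x))
    have h4 := Fl_add (Fl_sub h1 h2) h3
    have e : a * dd x u + ep u • dd x a - (b * dd x v + ep v • dd x b) - ep u • dd x a + ep v • dd x b
        = a * dd x u - b * dd x v := by abel
    rw [e] at h4
    exact h4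

/-- division with remainder for two elements with a common right multiple -/
lemma euclid {b u : FreeAlgebra k X} (hb : b ≠ 0) (hu : u ≠ 0) : ∀ (n : ℕ) (a v : FreeAlgebra k X),
    sz a ≤ n → a * u = b * v → ∃ q, sz (a - b * q) < sz b := by
  intro n
  induction n with
  | zero =>
    intro a v ha h
    refine ⟨0, ?_⟩
    rw [mul_zero, sub_zero]
    have : 0 < sz b := Nat.pos_of_ne_zero (fun h => hb (sz_eq_zero.1 h))
    omega
  | succ n ih =>
    intro a v ha h
    by_cases hab : sz a < sz b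
    · exact ⟨0, by rw [mul_zero, sub_zero]; exact hab⟩
    · obtain ⟨m, hm⟩ : ∃ m, sz u = m + 1 := ⟨sz u - 1, by
        have : sz u ≠ 0 := fun h => hu (sz_eq_zero.1 h)
        omega⟩
      obtain ⟨α, hα⟩ : ∃ α, sz a = α + 1 := ⟨sz a - 1, by
        have : sz b ≠ 0 := fun h => hb (sz_eq_zero.1 h)
        omega⟩
      obtain ⟨q, hq⟩ := weak (a := a) (b := b) (α := α) (Fl_iff.2 hα.le) (Fl_iff.2 (by omega))
        (u := u) (v := v) hm (by rw [h, sub_self]; exact Fl_zero _)
      have h1 := sz_le hq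
      obtain ⟨q', hq'⟩ := ih (a - b * q) (v - q * u) (by omega) (by
        rw [sub_mul, mul_sub, h, mul_assoc])
      refine ⟨q + q', ?_⟩
      have e : a - b * q - b * q' = a - b * (q + q') := by rw [mul_add]; abel
      rw [← e]; exact hq'

/-- chains of divisions with nonscalar quotients -/
inductive Ch : FreeAlgebra k X → FreeAlgebra k X → Prop
  | base (a b q : FreeAlgebra k X) (hb : b ≠ 0) (hq : 2 ≤ sz q) (e : a = b * q) : Ch a b
  | step (a b q r : FreeAlgebra k X) (hq : 2 ≤ sz q) (e : a = b * q + r) (h : Ch b r) : Ch a b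

lemma Ch.lt {a b : FreeAlgebra k X} (h : Ch a b) : b ≠ 0 ∧ sz b < sz a := by
  induction h with
  | base a b q hb hq e =>
    have hq0 : q ≠ 0 := by rintro rfl; rw [sz_eq_zero.2 rfl] at hq; omega
    have := sz_mul hb hq0
    rw [e]
    exact ⟨hb, by omega⟩
  | step a b q r hq e h ih =>
    obtain ⟨_, h2⟩ := ih
    have hb : b ≠ 0 := by rintro rfl; rw [sz_eq_zero.2 rfl] at h2; omega
    have hq0 : q ≠ 0 := by rintro rfl; rw [sz_eq_zero.2 rfl] at hq; omega
    have h3 := sz_mul hb hq0
    refine ⟨hb, ?_⟩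
    by_contra hlt
    have h4 : sz (a - r) ≤ sz b := sz_sub_le (by omega) (by omega)
    rw [e, add_sub_cancel_right] at h4
    omega

lemma sz_nonscalar {q : FreeAlgebra k X} : 2 ≤ sz q ↔ ¬ ∃ c : k, algebraMap k (FreeAlgebra k X) c = q := by
  constructor
  · rintro h ⟨c, rfl⟩
    have := sz_le (Fl_const (X := X) c)
    omega
  · intro h
    by_contra h2
    exact h ⟨ep q, (const_of_Fl_one (Fl_iff.2 (by omega))).symm⟩

lemma Ch.map (g : FreeAlgebra k X →ₐ[k] FreeAlgebra k X) (hg : Function.Injective g)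
    {a b : FreeAlgebra k X} (h : Ch a b) : Ch (g a) (g b) := by
  have hs : ∀ q, 2 ≤ sz q → 2 ≤ sz (g q) := by
    intro q hq
    rw [sz_nonscalar] at hq ⊢
    rintro ⟨c, hc⟩
    apply hq
    refine ⟨c, hg ?_⟩
    rw [AlgHom.commutes, hc]
  induction h with
  | base a b q hb hq e =>
    refine Ch.base _ _ (g q) ?_ (hs q hq) (by rw [e, map_mul])
    intro h
    exact hb (hg (by rw [h, map_zero]))
  | step a b q r hq e h ih =>
    exact Ch.step _ _ (g q) (g r) (hs q hq) (by rw [e, map_add, map_mul]) ih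

/-- a relation gives a chain -/
lemma chain_of_rel : ∀ (n : ℕ) (b r u v : FreeAlgebra k X), sz r ≤ n → r ≠ 0 → sz r < sz b → u ≠ 0 →
    b * u = r * v → Ch b r := by
  intro n
  induction n with
  | zero =>
    intro b r u v hn hr
    exact absurd (sz_eq_zero.1 (Nat.le_zero.1 hn)) hr
  | succ n ih =>
    intro b r u v hn hr hlt hu h
    obtain ⟨q, hq⟩ := euclid hr hu (sz b) b v le_rfl h
    have hq2 : 2 ≤ sz q := by
      by_contra hlt2
      have h1 : Fl 1 q := Fl_iff.2 (by omega)
      have h2 : Fl (sz r + 0) (r * q) := Fl_mul (Fl_sz r) h1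
      have h3 := sz_le h2
      have h4 : sz (b - r * q + r * q) ≤ sz r := sz_add_le hq.le (by omega)
      rw [sub_add_cancel] at h4
      omega
    by_cases hz : b - r * q = 0
    · exact Ch.base _ _ q hr hq2 (sub_eq_zero.1 hz)
    · have h5 : (b - r * q) * u = r * (v - q * u) := by rw [sub_mul, mul_sub, h, mul_assoc]
      have hne : v - q * u ≠ 0 := by
        intro h0
        rw [h0, mul_zero] at h5
        rcases mul_eq_zero.1 h5 with h6 | h6
        · exact hz h6
        · exact hu h6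
      exact Ch.step _ _ q (b - r * q) hq2 (by abel)
        (ih r (b - r * q) (v - q * u) u (by omega) hz hq hne h5.symm)

/-- the elements fixed by a set of endomorphisms -/
def Fixed (G : Set (FreeAlgebra k X →ₐ[k] FreeAlgebra k X)) (f : FreeAlgebra k X) : Prop :=
  ∀ g ∈ G, g f = f

/-- the quotient and the remainder of the first division are fixed -/
lemma fixed_step {G : Set (FreeAlgebra k X →ₐ[k] FreeAlgebra k X)} (hG : ∀ g ∈ G, Function.Injective g)
    {a b q r : FreeAlgebra k X} (ha : Fixed G a) (hb : Fixed G b) (e : a = b * q + r) (h : Ch b r) :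
    Fixed G q ∧ Fixed G r := by
  have key : ∀ g ∈ G, g q = q ∧ g r = r := by
    intro g hg
    have h1 := (h.map g (hG g hg)).lt.2
    rw [hb g hg] at h1
    have h2 := h.lt.2
    have hb0 : b ≠ 0 := by rintro rfl; rw [sz_eq_zero.2 rfl] at h2; omega
    have e2 := ha g hg
    rw [e, map_add, map_mul, hb g hg] at e2
    have e3 : b * (g q - q) = r - g r := by
      rw [mul_sub, sub_eq_sub_iff_add_eq_add, e2, add_comm]
    have h3 : g q - q = 0 := by
      by_contra hne
      have h4 := sz_mul hb0 hne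
      have h5 : 0 < sz (g q - q) := Nat.pos_of_ne_zero (fun h => hne (sz_eq_zero.1 h))
      have h6 : sz (r - g r) ≤ sz b - 1 := sz_sub_le (by omega) (by omega)
      rw [e3] at h4
      omega
    rw [h3, mul_zero] at e3
    exact ⟨sub_eq_zero.1 h3, (sub_eq_zero.1 e3.symm).symm⟩
  exact ⟨fun g hg => (key g hg).1, fun g hg => (key g hg).2⟩

lemma fixed_base {G : Set (FreeAlgebra k X →ₐ[k] FreeAlgebra k X)}
    {a b q : FreeAlgebra k X} (ha : Fixed G a) (hb : Fixed G b) (hb0 : b ≠ 0) (e : a = b * q) :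
    Fixed G q := by
  intro g hg
  have e2 := ha g hg
  rw [e, map_mul, hb g hg] at e2
  exact mul_left_cancel₀ hb0 e2

/-- the conclusion of the theorem for a pair -/
def Concl (G : Set (FreeAlgebra k X →ₐ[k] FreeAlgebra k X)) (a b : FreeAlgebra k X) : Prop :=
  ∃ d p q r s, Fixed G d ∧ Fixed G p ∧ Fixed G q ∧ Fixed G r ∧ Fixed G s ∧
    a = d * p ∧ b = d * q ∧ d = a * r + b * s

lemma Fixed.zero (G : Set (FreeAlgebra k X →ₐ[k] FreeAlgebra k X)) : Fixed G 0 := fun g _ => map_zero g
lemma Fixed.one (G : Set (FreeAlgebra k X →ₐ[k] FreeAlgebra k X)) : Fixed G 1 := fun g _ => map_one g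
lemma Fixed.add {G : Set (FreeAlgebra k X →ₐ[k] FreeAlgebra k X)} {a b : FreeAlgebra k X}
    (ha : Fixed G a) (hb : Fixed G b) : Fixed G (a + b) := fun g hg => by rw [map_add, ha g hg, hb g hg]
lemma Fixed.sub {G : Set (FreeAlgebra k X →ₐ[k] FreeAlgebra k X)} {a b : FreeAlgebra k X}
    (ha : Fixed G a) (hb : Fixed G b) : Fixed G (a - b) := fun g hg => by rw [map_sub, ha g hg, hb g hg]
lemma Fixed.mul {G : Set (FreeAlgebra k X →ₐ[k] FreeAlgebra k X)} {a b : FreeAlgebra k X}
    (ha : Fixed G a) (hb : Fixed G b) : Fixed G (a * b) := fun g hg => by rw [map_mul, ha g hg, hb g hg]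

lemma concl_base {G : Set (FreeAlgebra k X →ₐ[k] FreeAlgebra k X)}
    {a b q : FreeAlgebra k X} (ha : Fixed G a) (hb : Fixed G b) (hb0 : b ≠ 0) (e : a = b * q) :
    Concl G a b :=
  ⟨b, q, 1, 0, 1, hb, fixed_base ha hb hb0 e, Fixed.one G, Fixed.zero G, Fixed.one G, e,
    (mul_one b).symm, by rw [mul_zero, mul_one, zero_add]⟩

lemma concl_step {G : Set (FreeAlgebra k X →ₐ[k] FreeAlgebra k X)}
    {a b q r : FreeAlgebra k X} (hq : Fixed G q) (e : a = b * q + r) (h : Concl G b r) :
    Concl G a b := by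
  obtain ⟨d, p', q', r', s', hd, hp, hq', hr, hs, e1, e2, e3⟩ := h
  refine ⟨d, p' * q + q', p', s', r' - q * s', hd, (hp.mul hq).add hq', hp, hs, hr.sub (hq.mul hs), ?_, e1, ?_⟩
  · rw [e, mul_add, ← mul_assoc, ← e1, ← e2]
  · have : r = a - b * q := by rw [e]; abel
    rw [e3, this]
    noncomm_ring

lemma concl_of_Ch {G : Set (FreeAlgebra k X →ₐ[k] FreeAlgebra k X)} (hG : ∀ g ∈ G, Function.Injective g)
    {a b : FreeAlgebra k X} (h : Ch a b) : Fixed G a → Fixed G b → Concl G a b := by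
  induction h with
  | base a b q hb hq e => exact fun ha hb' => concl_base ha hb' hb e
  | step a b q r hq e h ih =>
    intro ha hb
    obtain ⟨h1, h2⟩ := fixed_step hG ha hb e h
    exact concl_step h1 e (ih hb h2)

/-- main theorem: two fixed elements with a common nonzero right multiple in the free algebra
generate a principal right ideal of the fixed ring -/
theorem main {G : Set (FreeAlgebra k X →ₐ[k] FreeAlgebra k X)} (hG : ∀ g ∈ G, Function.Injective g)
    {a b u v : FreeAlgebra k X} (ha : Fixed G a) (hb : Fixed G b) (h : a * u = b * v) (hne : a * u ≠ 0) :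
    Concl G a b := by
  have hu : u ≠ 0 := by rintro rfl; exact hne (mul_zero a)
  have hb0 : b ≠ 0 := by rintro rfl; rw [zero_mul] at h; exact hne h
  obtain ⟨q, hq⟩ := euclid hb0 hu (sz a) a v le_rfl h
  by_cases hz : a - b * q = 0
  · exact concl_base ha hb hb0 (sub_eq_zero.1 hz)
  · have h5 : (a - b * q) * u = b * (v - q * u) := by rw [sub_mul, mul_sub, h, mul_assoc]
    have hne : v - q * u ≠ 0 := by
      intro h0
      rw [h0, mul_zero] at h5
      rcases mul_eq_zero.1 h5 with h6 | h6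
      · exact hz h6
      · exact hu h6
    have hc : Ch b (a - b * q) := chain_of_rel (sz (a - b * q)) b (a - b * q) (v - q * u) u le_rfl hz hq hne h5.symm
    have e : a = b * q + (a - b * q) := by abel
    obtain ⟨h1, h2⟩ := fixed_step hG ha hb e hc
    exact concl_step h1 e (concl_of_Ch hG hc hb h2)

end Pool.Agent.Helper294.FG
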