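import Pool.Agent.Helper294.FG.Free

/-! Subalgebras of free algebras whose leading forms are the fixed points of graded endomorphisms. -/

namespace Pool.Agent.Helper294.FG

open Polynomial

universe u v z
variable {k : Type u} [Field k] {X : Type v} {Y : Type z} {w : X → ℕ} {δ : Y → ℕ}

/-- the leading part of a homomorphism -/
noncomputable def lead (w : X → ℕ) (δ : Y → ℕ) (ψ : FreeAlgebra k Y →ₐ[k] FreeAlgebra k X) :
    FreeAlgebra k Y →ₐ[k] FreeAlgebra k X :=
  FreeAlgebra.lift k (fun i => (ph w (ψ (FreeAlgebra.ι k i))).coeff (δ i))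

lemma lead_ι (ψ : FreeAlgebra k Y →ₐ[k] FreeAlgebra k X) (i : Y) :
    lead w δ ψ (FreeAlgebra.ι k i) = (ph w (ψ (FreeAlgebra.ι k i))).coeff (δ i) := by simp [lead]

/-- `f` has weight at most `n` -/
def Le (w : X → ℕ) (n : ℕ) (f : FreeAlgebra k X) : Prop := (ph w f).natDegree ≤ n

lemma Le.zero (n : ℕ) : Le w n (0 : FreeAlgebra k X) := by simp [Le]
lemma Le.add {n : ℕ} {f g : FreeAlgebra k X} (hf : Le w n f) (hg : Le w n g) : Le w n (f + g) := by
  rw [Le, map_add]; exact natDegree_add_le_of_degree_le hf hg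
lemma Le.sub {n : ℕ} {f g : FreeAlgebra k X} (hf : Le w n f) (hg : Le w n g) : Le w n (f - g) := by
  rw [Le, map_sub]; exact (natDegree_sub_le_of_le hf hg).trans (by simp)
lemma Le.mul {n m : ℕ} {f g : FreeAlgebra k X} (hf : Le w n f) (hg : Le w m g) : Le w (n + m) (f * g) := by
  rw [Le, map_mul]; exact natDegree_mul_le_of_le hf hg
lemma Le.mono {n m : ℕ} (h : n ≤ m) {f : FreeAlgebra k X} (hf : Le w n f) : Le w m f := le_trans hf h
lemma Le.coeff {n m : ℕ} (h : n < m) {f : FreeAlgebra k X} (hf : Le w n f) : (ph w f).coeff m = 0 :=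
  coeff_eq_zero_of_natDegree_lt (lt_of_le_of_lt hf h)
lemma Le.sum {n : ℕ} {I : Type*} (T : Finset I) (f : I → FreeAlgebra k X) (h : ∀ i ∈ T, Le w n (f i)) :
    Le w n (∑ i ∈ T, f i) := by
  classical
  induction T using Finset.induction_on with
  | empty => simpa using Le.zero n
  | insert a s ha ih =>
    rw [Finset.sum_insert ha]
    exact (h a (by simp)).add (ih fun i hi => h i (by simp [hi]))

lemma Hm.le {n : ℕ} {f : FreeAlgebra k X} (h : Hm w n f) : Le w n f := by
  rw [Le, h]; exact natDegree_monomial_le _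

/-- leading forms of images of components -/
lemma lead_comp (ψ : FreeAlgebra k Y →ₐ[k] FreeAlgebra k X)
    (hψ : ∀ i, Le w (δ i) (ψ (FreeAlgebra.ι k i))) (f : FreeAlgebra k Y) :
    ∀ n, Le w n (ψ ((ph δ f).coeff n)) ∧
      (ph w (ψ ((ph δ f).coeff n))).coeff n = lead w δ ψ ((ph δ f).coeff n) := by
  induction f using FreeAlgebra.induction with
  | grade0 r =>
    intro n
    rw [ph_algebraMap, coeff_monomial]
    split_ifs with h
    · subst h
      have e1 : ψ (algebraMap k (FreeAlgebra k Y) r) = algebraMap k (FreeAlgebra k X) r := ψ.commutes r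
      have e2 : lead w δ ψ (algebraMap k (FreeAlgebra k Y) r) = algebraMap k (FreeAlgebra k X) r :=
        (lead w δ ψ).commutes r
      rw [e1, e2]
      exact ⟨(Hm.const r).le, by rw [coeff_Hm (Hm.const r), if_pos rfl]⟩
    · rw [map_zero, map_zero, map_zero]; exact ⟨Le.zero n, by simp⟩
  | grade1 i =>
    intro n
    rw [ph_ι, coeff_monomial]
    split_ifs with h
    · subst h
      exact ⟨hψ i, (lead_ι ψ i).symm⟩
    · rw [map_zero, map_zero, map_zero]; exact ⟨Le.zero n, by simp⟩
  | mul a b ha hb =>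
    intro n
    rw [map_mul, coeff_mul, map_sum, map_sum, map_sum, finsetSum_coeff]
    constructor
    · apply Le.sum
      rintro ⟨i, j⟩ hij
      rw [Finset.HasAntidiagonal.mem_antidiagonal] at hij
      rw [← hij, map_mul]
      exact (ha i).1.mul (hb j).1
    · refine Finset.sum_congr rfl ?_
      rintro ⟨i, j⟩ hij
      rw [Finset.HasAntidiagonal.mem_antidiagonal] at hij
      simp only at hij ⊢
      rw [← hij, map_mul, map_mul, map_mul, coeff_mul_add_eq_of_natDegree_le (ha i).1 (hb j).1,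
        (ha i).2, (hb j).2]
  | add a b ha hb =>
    intro n
    rw [map_add, coeff_add, map_add, map_add, map_add, coeff_add]
    exact ⟨(ha n).1.add (hb n).1, by rw [(ha n).2, (hb n).2]⟩

lemma lead_Le (ψ : FreeAlgebra k Y →ₐ[k] FreeAlgebra k X)
    (hψ : ∀ i, Le w (δ i) (ψ (FreeAlgebra.ι k i))) {n : ℕ} {f : FreeAlgebra k Y} (hf : Le δ n f) :
    Le w n (ψ f) ∧ (ph w (ψ f)).coeff n = lead w δ ψ ((ph δ f).coeff n) := by
  have h1 : ψ f = ∑ m ∈ (ph δ f).support, ψ ((ph δ f).coeff m) := by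
    conv_lhs => rw [← sum_coeff (w := δ) f, Polynomial.sum, map_sum]
  have hm : ∀ m ∈ (ph δ f).support, m ≤ n := fun m hm => (le_natDegree_of_mem_supp m hm).trans hf
  constructor
  · rw [h1]
    exact Le.sum _ _ fun m hm' => ((lead_comp ψ hψ f m).1).mono (hm m hm')
  · rw [h1, map_sum, finsetSum_coeff]
    by_cases hn : n ∈ (ph δ f).support
    · rw [Finset.sum_eq_single n]
      · exact (lead_comp ψ hψ f n).2
      · intro m hm' hne
        exact ((lead_comp ψ hψ f m).1).coeff (lt_of_le_of_ne (hm m hm') hne)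
      · intro h; exact absurd hn h
    · rw [notMem_support_iff.1 hn, map_zero]
      refine Finset.sum_eq_zero fun m hm' => ?_
      refine ((lead_comp ψ hψ f m).1).coeff (lt_of_le_of_ne (hm m hm') ?_)
      rintro rfl
      exact hn hm'

lemma lead_Hm (ψ : FreeAlgebra k Y →ₐ[k] FreeAlgebra k X) (i : Y) :
    Hm w (δ i) (lead w δ ψ (FreeAlgebra.ι k i)) := by
  rw [lead_ι]; exact Hm_coeff _ _

lemma Le_pred {n : ℕ} {f : FreeAlgebra k X} (h : Le w (n + 1) f) (h0 : (ph w f).coeff (n + 1) = 0) :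
    Le w n f := by
  rw [Le, natDegree_le_iff_coeff_eq_zero]
  intro m hm
  rcases eq_or_lt_of_le (Nat.succ_le_of_lt hm) with h1 | h1
  · rw [← h1]; exact h0
  · exact h.coeff h1

lemma Le_zero (hw : ∀ x, 0 < w x) {f : FreeAlgebra k X} (h : Le w 0 f) :
    f = algebraMap k (FreeAlgebra k X) (ep f) := by
  rw [← const_coeff hw f]
  conv_lhs => rw [← sum_coeff (w := w) f, Polynomial.sum]
  by_cases h0 : 0 ∈ (ph w f).support
  · rw [Finset.sum_eq_single 0]
    · intro m hm hne
      exact h.coeff (Nat.pos_of_ne_zero hne)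
    · intro h'; exact absurd h0 h'
  · rw [notMem_support_iff.1 h0]
    refine Finset.sum_eq_zero fun m hm => ?_
    rcases Nat.eq_zero_or_pos m with h1 | h1
    · rw [h1]; exact notMem_support_iff.1 h0
    · exact h.coeff h1

/-- the natural map of the graded fixed ring is graded -/
lemma Lf_coeff {G : Set (FreeAlgebra k X →ₐ[k] FreeAlgebra k X)} (f : FreeAlgebra k (Ix w G)) (n : ℕ) :
    (ph w (Lf w G f)).coeff n = Lf w G ((ph (fun i : Ix w G => i.1 + 1) f).coeff n) := by
  have h : (ph w).comp (Lf w G) = (mapAlgHom (Lf w G)).comp (ph (fun i : Ix w G => i.1 + 1)) := by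
    apply FreeAlgebra.hom_ext
    funext i
    simp only [Function.comp_apply, AlgHom.comp_apply]
    rw [Lf_ι, ph_ι, show ph w (yy w G i) = monomial (i.1 + 1) (yy w G i) from (yy_mem w G i).2]
    simp [Lf_ι]
  have h2 : ph w (Lf w G f) = mapAlgHom (Lf w G) (ph (fun i : Ix w G => i.1 + 1) f) := DFunLike.congr_fun h f
  rw [h2]
  simp

/-- Main theorem: a subalgebra whose leading forms are exactly the fixed homogeneous elements of a
set of graded endomorphisms is free. -/
theorem free_of_leading (hw : ∀ x, 0 < w x) (R : Subalgebra k (FreeAlgebra k X))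
    (G : Set (FreeAlgebra k X →ₐ[k] FreeAlgebra k X))
    (hG : ∀ g ∈ G, ∀ x, Hm w (w x) (g (FreeAlgebra.ι k x)))
    (h1 : ∀ r ∈ R, ∀ n, Le w n r → Fixed G ((ph w r).coeff n))
    (h2 : ∀ n, ∀ s ∈ Sn w G n, ∃ r ∈ R, Le w n r ∧ (ph w r).coeff n = s) :
    ∃ y : Ix w G → R, Function.Bijective (FreeAlgebra.lift k y) := by
  have hz : ∀ i : Ix w G, ∃ r ∈ R, Le w (i.1 + 1) r ∧ (ph w r).coeff (i.1 + 1) = yy w G i :=
    fun i => h2 _ _ (yy_mem w G i)
  choose z hzR hzL hzc using hz
  let y : Ix w G → R := fun i => ⟨z i, hzR i⟩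
  let ψ : FreeAlgebra k (Ix w G) →ₐ[k] FreeAlgebra k X := FreeAlgebra.lift k z
  have hψι : ∀ i, ψ (FreeAlgebra.ι k i) = z i := fun i => by simp [ψ]
  have hψ : ∀ i : Ix w G, Le w (i.1 + 1) (ψ (FreeAlgebra.ι k i)) := fun i => by rw [hψι]; exact hzL i
  have hlead : lead w (fun i : Ix w G => i.1 + 1) ψ = Lf w G := by
    apply FreeAlgebra.hom_ext
    funext i
    simp only [Function.comp_apply]
    rw [lead_ι, hψι, hzc, Lf_ι]
  have hval : ∀ f : FreeAlgebra k (Ix w G), ((FreeAlgebra.lift k y f : R) : FreeAlgebra k X) = ψ f := by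
    intro f
    have h1 : R.val.comp (FreeAlgebra.lift k y) = ψ := by
      apply FreeAlgebra.hom_ext
      funext i
      simp [ψ, y]
    exact DFunLike.congr_fun h1 f
  refine ⟨y, ?_, ?_⟩
  · rw [injective_iff_map_eq_zero]
    intro f hf
    have hf' : ψ f = 0 := by rw [← hval, hf]; rfl
    by_contra hne
    set δ' : Ix w G → ℕ := fun i => i.1 + 1 with hδ'
    have h3 : ph δ' f ≠ 0 := fun h => hne (ph_injective h)
    have h4 := (lead_Le (δ := δ') ψ hψ (le_refl (ph δ' f).natDegree : Le δ' (ph δ' f).natDegree f)).2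
    rw [hf', map_zero, coeff_zero, hlead] at h4
    obtain ⟨n, hn⟩ := exists_Fl (star ((ph δ' f).coeff (ph δ' f).natDegree))
    have h5 := Lf_inj hw hG (n + 1) _ hn h4.symm
    exact h3 (leadingCoeff_eq_zero.1 h5)
  · have key : ∀ n, ∀ r ∈ R, Le w n r → ∃ f, ψ f = r := by
      intro n
      induction n with
      | zero =>
        intro r _ hr
        exact ⟨algebraMap k _ (ep r), by rw [AlgHom.commutes]; exact (Le_zero hw hr).symm⟩
      | succ n ih =>
        intro r hr hle
        have h3 := h1 r hr _ hle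
        obtain ⟨h, hh⟩ := Lf_surj hw hG _ h3
        set δ' : Ix w G → ℕ := fun i => i.1 + 1 with hδ'
        set h' := (ph δ' h).coeff (n + 1) with hh'
        have hh2 : Lf w G h' = (ph w r).coeff (n + 1) := by
          rw [hh', ← Lf_coeff, show Lf w G h = (ph w r).coeff (n + 1) from hh, coeff_Hm (Hm_coeff r (n + 1)), if_pos rfl]
        have hhm : Hm δ' (n + 1) h' := Hm_coeff h (n + 1)
        have h4 := lead_Le (δ := δ') ψ hψ hhm.le
        rw [hlead, coeff_Hm hhm, if_pos rfl, hh2] at h4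
        have hψR : ψ h' ∈ R := by rw [← hval]; exact (FreeAlgebra.lift k y h').2
        have h5 : Le w n (r - ψ h') := by
          apply Le_pred (hle.sub h4.1)
          rw [map_sub, coeff_sub, h4.2, sub_self]
        obtain ⟨f, hf⟩ := ih (r - ψ h') (R.sub_mem hr hψR) h5
        exact ⟨f + h', by rw [map_add, hf, sub_add_cancel]⟩
    intro r
    obtain ⟨f, hf⟩ := key _ r r.2 (le_refl (ph w (r : FreeAlgebra k X)).natDegree)
    exact ⟨f, Subtype.ext (by rw [hval]; exact hf)⟩

end Pool.Agent.Helper294.FG
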