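import Pool.Agent.Helper294.FG.Basic

/-! Weight gradings of free algebras. -/

namespace Pool.Agent.Helper294.FG

open Polynomial

universe u v
variable {k : Type u} [Field k] {X : Type v} (w : X → ℕ)

/-- the coaction of the weight grading -/
noncomputable def ph : FreeAlgebra k X →ₐ[k] (FreeAlgebra k X)[X] :=
  FreeAlgebra.lift k (fun x => monomial (w x) (FreeAlgebra.ι k x))

lemma ph_ι (x : X) : ph w (FreeAlgebra.ι k x) = monomial (w x) (FreeAlgebra.ι k x) := by
  simp [ph]

lemma ph_algebraMap (c : k) :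
    ph w (algebraMap k (FreeAlgebra k X) c) = monomial 0 (algebraMap k (FreeAlgebra k X) c) := by
  rw [AlgHom.commutes, monomial_zero_left]; rfl

/-- homogeneous elements of weight `n` -/
def Hm (n : ℕ) (f : FreeAlgebra k X) : Prop := ph w f = monomial n f

variable {w}

lemma Hm.zero (n : ℕ) : Hm w n (0 : FreeAlgebra k X) := by simp [Hm]
lemma Hm.add {n : ℕ} {f g : FreeAlgebra k X} (hf : Hm w n f) (hg : Hm w n g) : Hm w n (f + g) := by
  rw [Hm, map_add, hf, hg, map_add]
lemma Hm.smul {n : ℕ} (c : k) {f : FreeAlgebra k X} (hf : Hm w n f) : Hm w n (c • f) := by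
  rw [Hm, map_smul, hf, smul_monomial]
lemma Hm.neg {n : ℕ} {f : FreeAlgebra k X} (hf : Hm w n f) : Hm w n (-f) := by
  rw [Hm, map_neg, hf, map_neg]
lemma Hm.sub {n : ℕ} {f g : FreeAlgebra k X} (hf : Hm w n f) (hg : Hm w n g) : Hm w n (f - g) := by
  rw [Hm, map_sub, hf, hg, map_sub]
lemma Hm.mul {n m : ℕ} {f g : FreeAlgebra k X} (hf : Hm w n f) (hg : Hm w m g) : Hm w (n + m) (f * g) := by
  rw [Hm, map_mul, hf, hg, monomial_mul_monomial]
lemma Hm.ι (x : X) : Hm w (w x) (FreeAlgebra.ι k x) := ph_ι w x
lemma Hm.const (c : k) : Hm w 0 (algebraMap k (FreeAlgebra k X) c) := ph_algebraMap w c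
lemma Hm.one : Hm w 0 (1 : FreeAlgebra k X) := by
  rw [← map_one (algebraMap k (FreeAlgebra k X))]; exact Hm.const 1
lemma Hm.sum {n : ℕ} {I : Type*} (T : Finset I) (f : I → FreeAlgebra k X) (h : ∀ i ∈ T, Hm w n (f i)) :
    Hm w n (∑ i ∈ T, f i) := by
  classical
  induction T using Finset.induction_on with
  | empty => simpa using Hm.zero n
  | insert a s ha ih =>
    rw [Finset.sum_insert ha]
    exact (h a (by simp)).add (ih fun i hi => h i (by simp [hi]))

lemma coeff_Hm {n : ℕ} {f : FreeAlgebra k X} (hf : Hm w n f) (m : ℕ) :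
    (ph w f).coeff m = if n = m then f else 0 := by
  rw [hf, coeff_monomial]

lemma Hm.unique {n m : ℕ} {f : FreeAlgebra k X} (hf : Hm w n f) (hg : Hm w m f) (h : n ≠ m) : f = 0 := by
  have h1 := coeff_Hm hf n
  rw [coeff_Hm hg n, if_neg h.symm, if_pos rfl] at h1
  exact h1.symm

lemma const_coeff (hw : ∀ x, 0 < w x) (f : FreeAlgebra k X) :
    (ph w f).coeff 0 = algebraMap k (FreeAlgebra k X) (ep f) := by
  induction f using FreeAlgebra.induction with
  | grade0 r => rw [ph_algebraMap, coeff_monomial, if_pos rfl, AlgHom.commutes]; rfl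
  | grade1 x => rw [ph_ι, coeff_monomial, if_neg (hw x).ne', ep_ι, map_zero]
  | mul a b ha hb => rw [map_mul, mul_coeff_zero, ha, hb, map_mul, map_mul]
  | add a b ha hb => rw [map_add, coeff_add, ha, hb, map_add, map_add]

lemma Hm.eq_const (hw : ∀ x, 0 < w x) {f : FreeAlgebra k X} (hf : Hm w 0 f) :
    f = algebraMap k (FreeAlgebra k X) (ep f) := by
  rw [← const_coeff hw, coeff_Hm hf, if_pos rfl]

lemma ep_Hm (hw : ∀ x, 0 < w x) {n : ℕ} (hn : 0 < n) {f : FreeAlgebra k X} (hf : Hm w n f) : ep f = 0 := by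
  have h := const_coeff hw f
  rw [coeff_Hm hf, if_neg hn.ne'] at h
  have h2 := congrArg ep h
  rw [map_zero, AlgHom.commutes] at h2
  exact h2.symm

/-- components are homogeneous -/
lemma Hm_coeff (f : FreeAlgebra k X) : ∀ n, Hm w n ((ph w f).coeff n) := by
  induction f using FreeAlgebra.induction with
  | grade0 r =>
    intro n
    rw [ph_algebraMap, coeff_monomial]
    split_ifs with h
    · subst h; exact Hm.const r
    · exact Hm.zero n
  | grade1 x =>
    intro n
    rw [ph_ι, coeff_monomial]
    split_ifs with h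
    · subst h; exact Hm.ι x
    · exact Hm.zero n
  | mul a b ha hb =>
    intro n
    rw [map_mul, coeff_mul]
    apply Hm.sum
    rintro ⟨i, j⟩ hij
    rw [Finset.HasAntidiagonal.mem_antidiagonal] at hij
    rw [← hij]
    exact (ha i).mul (hb j)
  | add a b ha hb => intro n; rw [map_add, coeff_add]; exact (ha n).add (hb n)

/-- an element is the sum of its components -/
lemma sum_coeff (f : FreeAlgebra k X) : (ph w f).sum (fun _ a => a) = f := by
  have key : ∀ p : (FreeAlgebra k X)[X], p.sum (fun _ a => a) =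
      eval₂RingHom' (RingHom.id (FreeAlgebra k X)) 1 (fun a => Commute.one_right a) p := by
    intro p
    change _ = eval₂ _ _ p
    rw [eval₂_eq_sum]
    simp
  rw [key]
  induction f using FreeAlgebra.induction with
  | grade0 r => rw [ph_algebraMap, ← key]; simp
  | grade1 x => rw [ph_ι, ← key]; simp
  | mul a b ha hb => rw [map_mul, map_mul, ha, hb]
  | add a b ha hb => rw [map_add, map_add, ha, hb]

lemma ph_injective {f : FreeAlgebra k X} (h : ph w f = 0) : f = 0 := by
  rw [← sum_coeff (w := w) f, h]; simp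

/-- a weight preserving endomorphism commutes with the coaction -/
lemma ph_comm (g : FreeAlgebra k X →ₐ[k] FreeAlgebra k X)
    (hg : ∀ x, Hm w (w x) (g (FreeAlgebra.ι k x))) (f : FreeAlgebra k X) (n : ℕ) :
    (ph w (g f)).coeff n = g ((ph w f).coeff n) := by
  have h : (ph w).comp g = (mapAlgHom g).comp (ph w) := by
    apply FreeAlgebra.hom_ext
    funext x
    simp only [Function.comp_apply, AlgHom.comp_apply]
    rw [hg x, ph_ι]
    simp
  have h2 : ph w (g f) = mapAlgHom g (ph w f) := DFunLike.congr_fun h f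
  rw [h2]
  simp

lemma Hm_map (g : FreeAlgebra k X →ₐ[k] FreeAlgebra k X)
    (hg : ∀ x, Hm w (w x) (g (FreeAlgebra.ι k x))) {n : ℕ} {f : FreeAlgebra k X} (hf : Hm w n f) :
    Hm w n (g f) := by
  apply Polynomial.ext
  intro m
  rw [ph_comm g hg, coeff_Hm hf, coeff_monomial]
  split_ifs
  · rfl
  · exact map_zero g

/-- cofactors and components -/
lemma dd_coeff (hw : ∀ x, 0 < w x) (x : X) (f : FreeAlgebra k X) :
    ∀ n, dd x ((ph w f).coeff n) = (ph w (dd x f) * Polynomial.X ^ (w x)).coeff n := by
  classical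
  induction f using FreeAlgebra.induction with
  | grade0 r =>
    intro n
    rw [dd_algebraMap, map_zero, zero_mul, coeff_zero, ph_algebraMap, coeff_monomial]
    split_ifs
    · exact dd_algebraMap x r
    · exact dd_zero x
  | grade1 y =>
    intro n
    rw [ph_ι, coeff_monomial]
    by_cases h : y = x
    · subst h
      rw [dd_ι_self, map_one, one_mul, coeff_X_pow]
      split_ifs with h1 h2 h2
      · exact dd_ι_self y
      · exact absurd h1.symm h2
      · exact absurd h2.symm h1
      · exact dd_zero y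
    · rw [dd_ι_ne x y h, map_zero, zero_mul, coeff_zero]
      split_ifs
      · exact dd_ι_ne x y h
      · exact dd_zero x
  | mul a b ha hb =>
    intro n
    have hsum : ∀ (T : Finset (ℕ × ℕ)) (F : ℕ × ℕ → FreeAlgebra k X),
        dd x (∑ p ∈ T, F p) = ∑ p ∈ T, dd x (F p) := by
      intro T F
      induction T using Finset.induction_on with
      | empty => simp [dd_zero]
      | insert a s ha ih => rw [Finset.sum_insert ha, Finset.sum_insert ha, dd_add, ih]
    rw [map_mul, coeff_mul, hsum, dd_mul, map_add, map_mul, map_smul, add_mul, coeff_add,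
      mul_assoc, coeff_mul, smul_mul_assoc, coeff_smul, ← ha n]
    have h1 : ∀ p ∈ Finset.HasAntidiagonal.antidiagonal n,
        dd x ((ph w a).coeff p.1 * (ph w b).coeff p.2) =
        (ph w a).coeff p.1 * (ph w (dd x b) * Polynomial.X ^ (w x)).coeff p.2 +
          (if p.2 = 0 then ep b • dd x ((ph w a).coeff p.1) else 0) := by
      rintro ⟨i, j⟩ _
      rw [dd_mul, hb j]
      congr 1
      split_ifs with h
      · simp only at h
        subst h
        rw [const_coeff hw b, AlgHom.commutes]; rfl
      · rw [ep_Hm hw (Nat.pos_of_ne_zero h) (Hm_coeff b j), zero_smul]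
    rw [Finset.sum_congr rfl h1, Finset.sum_add_distrib]
    congr 1
    rw [← Finset.sum_filter, Finset.sum_eq_single (n, 0)]
    · rintro ⟨i, j⟩ hij hne
      simp only [Finset.mem_filter, Finset.HasAntidiagonal.mem_antidiagonal] at hij
      exact absurd (Prod.ext (by simpa [hij.2] using hij.1) hij.2) hne
    · intro h
      simp at h
  | add a b ha hb =>
    intro n
    rw [map_add, coeff_add, dd_add, ha, hb, dd_add, map_add, add_mul, coeff_add]

lemma Hm_dd (hw : ∀ x, 0 < w x) (x : X) {n : ℕ} {f : FreeAlgebra k X} (hf : Hm w n f) :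
    (w x ≤ n → Hm w (n - w x) (dd x f)) ∧ (n < w x → dd x f = 0) := by
  have h := dd_coeff hw x f
  constructor
  · intro hle
    apply Polynomial.ext
    intro m
    have h1 := h (m + w x)
    rw [coeff_mul_X_pow, coeff_Hm hf] at h1
    rw [← h1, coeff_monomial]
    by_cases h2 : n = m + w x
    · rw [if_pos h2, if_pos (by omega)]
    · rw [if_neg h2, if_neg (by omega)]; exact dd_zero x
  · intro hlt
    have h1 := h n
    rw [coeff_mul_X_pow', if_neg (by omega), coeff_Hm hf, if_pos rfl] at h1
    exact h1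

end Pool.Agent.Helper294.FG
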